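import Pool.Agent.helper43.KG.Spec

set_option autoImplicit false

/-!
# kg:COV
-/

namespace Pool.Agent.helper43.KG

open Finset MeasureTheory ProbabilityTheory
open scoped ENNReal

theorem COV_cosh (r z : ℝ) (hr : r ^ 2 ≤ 1) : Real.cosh (r * z) - 1 ≤ r ^ 2 * (Real.cosh z - 1) := by
  have h1 := Real.hasSum_cosh (r * z)
  have h2 := (Real.hasSum_cosh z).mul_left (r ^ 2)
  have h3 : HasSum (fun n : ℕ => if n = 0 then 1 - r ^ 2 else 0) (1 - r ^ 2) := hasSum_ite_eq 0 (1 - r ^ 2)
  have h4 := h2.add h3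
  have h5 := hasSum_le (fun n : ℕ => ?_) h1 h4
  · linarith
  · show (r * z) ^ (2 * n) / ((2 * n).factorial : ℝ) ≤
      r ^ 2 * (z ^ (2 * n) / ((2 * n).factorial : ℝ)) + (if n = 0 then 1 - r ^ 2 else 0)
    rcases Nat.eq_zero_or_pos n with hn | hn
    · subst hn
      simp
    · rw [if_neg hn.ne', add_zero, ← mul_div_assoc, mul_pow]
      have hz : 0 ≤ z ^ (2 * n) := by
        rw [pow_mul]
        positivity
      have hr2 : r ^ (2 * n) ≤ r ^ 2 := by
        rw [pow_mul]
        calc (r ^ 2) ^ n ≤ (r ^ 2) ^ 1 := pow_le_pow_of_le_one (sq_nonneg r) hr hn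
          _ = r ^ 2 := pow_one _
      exact div_le_div_of_nonneg_right (mul_le_mul_of_nonneg_right hr2 hz) (by positivity)

theorem COV_prod (h : TRI) {ι : Type} [DecidableEq ι] (s : Finset ι) (θ : ι → ℝ) :
    EE s (fun _ => 0) (fun U => Real.cos (∑ j ∈ s, θ j * sg U j)) = ∏ j ∈ s, Real.cos (θ j) := by
  have h1 := (h ι s θ 0).1
  rw [Real.cos_zero, one_mul] at h1
  rw [← h1]
  refine EE_congr fun U _ => ?_
  rw [zero_add]

theorem COV_pr {ι : Type} [DecidableEq ι] (s : Finset ι) (P : ι → Prop) [DecidablePred P] (F : ι → ℝ) (c : ℝ)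
    (h1 : ∀ i, P i → F i = c) (h2 : ∀ i, ¬ P i → F i = 1) : ∏ i ∈ s, F i = c ^ (s.filter P).card := by
  rw [← Finset.prod_filter_mul_prod_filter_not s P, Finset.prod_congr rfl fun i hi => h1 i (mem_filter.1 hi).2,
    Finset.prod_congr rfl fun i hi => h2 i (mem_filter.1 hi).2, Finset.prod_const, Finset.prod_const_one, mul_one]

theorem COV_num (x c : ℝ) (N n m : ℕ) (hc : c = Real.cos (2 * x)) (hc0 : 1 / 2 ≤ c) (hc1 : c ≤ 1) (hN : n + m = N)
    (hNpos : 0 < N) (y : ℝ) (hy : (1 - c) ≤ y / 2) :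
    1 / 2 * c ^ n + 1 / 2 * c ^ m - (Real.cos x ^ N) ^ 2 ≤
      (((n : ℝ) - m) / N) ^ 2 * (Real.cosh (N * y / 2) - 1) := by
  have hcp : 0 < c := by linarith
  obtain ⟨L, hL⟩ : ∃ L : ℝ, L = - Real.log c := ⟨_, rfl⟩
  have hcL : c = Real.exp (-L) := by rw [hL, neg_neg, Real.exp_log hcp]
  have hL0 : 0 ≤ L := by
    rw [hL]
    have := Real.log_nonpos hcp.le hc1
    linarith
  have hLy : L ≤ y := by
    have h1 : Real.log c⁻¹ ≤ c⁻¹ - 1 := Real.log_le_sub_one_of_pos (inv_pos.2 hcp)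
    rw [Real.log_inv, ← hL] at h1
    have h2 : c⁻¹ - 1 = (1 - c) / c := by field_simp
    rw [h2] at h1
    refine h1.trans ?_
    rw [div_le_iff₀ hcp]
    have : 0 ≤ y := by linarith
    nlinarith
  have hNr : (0 : ℝ) < N := by exact_mod_cast hNpos
  have hcos2 : Real.exp (-(L / 2)) ≤ Real.cos x ^ 2 := by
    have h1 : Real.exp (-(L / 2)) ^ 2 ≤ (Real.cos x ^ 2) ^ 2 := by
      have e1 : Real.exp (-(L / 2)) ^ 2 = c := by
        rw [hcL, ← Real.exp_nat_mul]
        congr 1
        push_cast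
        ring
      rw [e1, hc, Real.cos_two_mul]
      nlinarith [sq_nonneg (1 - Real.cos x ^ 2)]
    exact (pow_le_pow_iff_left₀ (Real.exp_pos _).le (sq_nonneg _) (by norm_num)).1 h1
  have h3 : Real.exp (-(L * N / 2)) ≤ (Real.cos x ^ N) ^ 2 := by
    have e1 : Real.exp (-(L * N / 2)) = Real.exp (-(L / 2)) ^ N := by
      rw [← Real.exp_nat_mul]
      congr 1
      ring
    rw [e1, ← pow_mul, mul_comm N 2, pow_mul]
    exact pow_le_pow_left₀ (Real.exp_pos _).le hcos2 N
  have h4 : 1 / 2 * c ^ n + 1 / 2 * c ^ m = Real.exp (-(L * N / 2)) * Real.cosh (((n : ℝ) - m) / N * (L * N / 2)) := by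
    have e0 : ((n : ℝ) - m) / N * (L * N / 2) = L * ((n : ℝ) - m) / 2 := by
      field_simp
    have e1 : c ^ n = Real.exp (-(L * N / 2)) * Real.exp (-(L * ((n : ℝ) - m) / 2)) := by
      rw [hcL, ← Real.exp_nat_mul, ← Real.exp_add]
      congr 1
      rw [← hN]
      push_cast
      ring
    have e2 : c ^ m = Real.exp (-(L * N / 2)) * Real.exp (L * ((n : ℝ) - m) / 2) := by
      rw [hcL, ← Real.exp_nat_mul, ← Real.exp_add]
      congr 1
      rw [← hN]
      push_cast
      ring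
    rw [e0, e1, e2, Real.cosh_eq]
    ring
  have h5 : 1 ≤ Real.cosh (((n : ℝ) - m) / N * (L * N / 2)) := Real.one_le_cosh _
  have h6 : Real.exp (-(L * N / 2)) ≤ 1 := by
    rw [Real.exp_le_one_iff]
    have : 0 ≤ L * N / 2 := by positivity
    linarith
  have h7 : 1 / 2 * c ^ n + 1 / 2 * c ^ m - (Real.cos x ^ N) ^ 2 ≤
      Real.cosh (((n : ℝ) - m) / N * (L * N / 2)) - 1 := by
    rw [h4]
    calc Real.exp (-(L * N / 2)) * Real.cosh (((n : ℝ) - m) / N * (L * N / 2)) - (Real.cos x ^ N) ^ 2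
        ≤ Real.exp (-(L * N / 2)) * Real.cosh (((n : ℝ) - m) / N * (L * N / 2)) - Real.exp (-(L * N / 2)) := by
          linarith
      _ = Real.exp (-(L * N / 2)) * (Real.cosh (((n : ℝ) - m) / N * (L * N / 2)) - 1) := by ring
      _ ≤ 1 * (Real.cosh (((n : ℝ) - m) / N * (L * N / 2)) - 1) :=
          mul_le_mul_of_nonneg_right h6 (by linarith)
      _ = _ := one_mul _
  refine h7.trans ((COV_cosh _ _ ?_).trans ?_)
  · have hN2 : (n : ℝ) + m = N := by exact_mod_cast hN
    rw [div_pow, div_le_one (by positivity)]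
    have hn : (0 : ℝ) ≤ n := Nat.cast_nonneg n
    have hm : (0 : ℝ) ≤ m := Nat.cast_nonneg m
    rw [← hN2]
    nlinarith
  · refine mul_le_mul_of_nonneg_left ?_ (sq_nonneg _)
    have h8 : Real.cosh (L * N / 2) ≤ Real.cosh (N * y / 2) := by
      rw [Real.cosh_le_cosh, abs_of_nonneg (by positivity), abs_of_nonneg (by
        have : 0 ≤ y := hL0.trans hLy
        positivity)]
      have := mul_le_mul_of_nonneg_right hLy hNr.le
      linarith [mul_comm (N : ℝ) y]
    linarith

theorem t_cov (h : TRI) : COV := by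
  intro ι _ s a b ω ha hb hs hω hω4
  obtain ⟨N, hN⟩ : ∃ N : ℕ, N = s.card := ⟨_, rfl⟩
  rw [← hN] at hs hω4 ⊢
  have hNr : (0 : ℝ) < N := by exact_mod_cast hs
  have hsq : 0 < Real.sqrt N := Real.sqrt_pos.2 hNr
  obtain ⟨x, hx⟩ : ∃ x : ℝ, x = 2 * ω / Real.sqrt N := ⟨_, rfl⟩
  rw [← hx]
  have hx0 : 0 ≤ x := by rw [hx]; positivity
  have hx1 : 2 * x ≤ 1 := by
    rw [hx]
    have : 2 * (2 * ω / Real.sqrt N) = 4 * ω / Real.sqrt N := by ring
    rw [this, div_le_one hsq]
    exact hω4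
  obtain ⟨c, hc⟩ : ∃ c : ℝ, c = Real.cos (2 * x) := ⟨_, rfl⟩
  have hc1 : c ≤ 1 := by rw [hc]; exact Real.cos_le_one _
  have hcy : 1 - c ≤ (2 * x) ^ 2 / 2 := by
    have := Real.one_sub_sq_div_two_le_cos (x := 2 * x)
    rw [hc]
    linarith
  have hc0 : 1 / 2 ≤ c := by nlinarith
  -- the two products
  have hP : ∀ t : ι → ℝ, EE s (fun _ => 0) (fun U => Real.cos (∑ j ∈ s, t j * sg U j)) =
      ∏ j ∈ s, Real.cos (t j) := COV_prod h s
  have hE : EE s (fun _ => 0) (fun U => Real.cos (x * ∑ i ∈ s, a i * sg U i) *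
      Real.cos (x * ∑ i ∈ s, b i * sg U i)) =
      1 / 2 * (∏ j ∈ s, Real.cos (x * (a j + b j))) + 1 / 2 * ∏ j ∈ s, Real.cos (x * (a j - b j)) := by
    rw [← hP, ← hP, ← EE_mul, ← EE_mul, ← EE_add]
    refine EE_congr fun U _ => ?_
    have e1 : (∑ j ∈ s, x * (a j + b j) * sg U j) = x * (∑ i ∈ s, a i * sg U i) + x * ∑ i ∈ s, b i * sg U i := by
      rw [Finset.mul_sum, Finset.mul_sum, ← Finset.sum_add_distrib]
      exact Finset.sum_congr rfl fun j _ => by ring
    have e2 : (∑ j ∈ s, x * (a j - b j) * sg U j) = x * (∑ i ∈ s, a i * sg U i) - x * ∑ i ∈ s, b i * sg U i := by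
      rw [Finset.mul_sum, Finset.mul_sum, ← Finset.sum_sub_distrib]
      exact Finset.sum_congr rfl fun j _ => by ring
    rw [e1, e2, Real.cos_add, Real.cos_sub]
    ring
  have hp1 : (∏ j ∈ s, Real.cos (x * (a j + b j))) = c ^ (s.filter fun i => a i = b i).card := by
    refine COV_pr s (fun i => a i = b i) _ c ?_ ?_
    · intro i hi
      rcases hb i with h1 | h1
      · rw [hi, h1, hc]
        congr 1
        ring
      · rw [hi, h1, hc, ← Real.cos_neg]
        congr 1
        ring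
    · intro i hi
      have : a i + b i = 0 := by
        rcases ha i with h1 | h1 <;> rcases hb i with h2 | h2
        · exact absurd (h1.trans h2.symm) hi
        · rw [h1, h2]; ring
        · rw [h1, h2]; ring
        · exact absurd (h1.trans h2.symm) hi
      rw [this, mul_zero, Real.cos_zero]
  have hp2 : (∏ j ∈ s, Real.cos (x * (a j - b j))) = c ^ (s.filter fun i => ¬ a i = b i).card := by
    refine COV_pr s (fun i => ¬ a i = b i) _ c ?_ ?_
    · intro i hi
      rcases ha i with h1 | h1 <;> rcases hb i with h2 | h2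
      · exact absurd (h1.trans h2.symm) hi
      · rw [h1, h2, hc]
        congr 1
        ring
      · rw [h1, h2, hc, ← Real.cos_neg]
        congr 1
        ring
      · exact absurd (h1.trans h2.symm) hi
    · intro i hi
      have : a i = b i := not_not.1 hi
      rw [this, sub_self, mul_zero, Real.cos_zero]
  have hnm : (s.filter fun i => a i = b i).card + (s.filter fun i => ¬ a i = b i).card = N := by
    rw [hN]
    exact Finset.card_filter_add_card_filter_not _
  have hS : (∑ i ∈ s, a i * b i) =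
      ((s.filter fun i => a i = b i).card : ℝ) - ((s.filter fun i => ¬ a i = b i).card : ℝ) := by
    rw [← Finset.sum_filter_add_sum_filter_not s (fun i => a i = b i)]
    have e1 : (∑ i ∈ s with a i = b i, a i * b i) = ((s.filter fun i => a i = b i).card : ℝ) := by
      rw [Finset.sum_congr rfl (g := fun _ => (1 : ℝ)), Finset.sum_const, nsmul_eq_mul, mul_one]
      intro i hi
      rw [(mem_filter.1 hi).2]
      rcases hb i with h1 | h1 <;> rw [h1] <;> ring
    have e2 : (∑ i ∈ s with ¬ a i = b i, a i * b i) = - ((s.filter fun i => ¬ a i = b i).card : ℝ) := by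
      rw [Finset.sum_congr rfl (g := fun _ => (-1 : ℝ)), Finset.sum_const, nsmul_eq_mul, mul_neg, mul_one]
      intro i hi
      have hi2 := (mem_filter.1 hi).2
      rcases ha i with h1 | h1 <;> rcases hb i with h2 | h2
      · exact absurd (h1.trans h2.symm) hi2
      · rw [h1, h2]; ring
      · rw [h1, h2]; ring
      · exact absurd (h1.trans h2.symm) hi2
    rw [e1, e2]
    ring
  rw [hE, hp1, hp2, hS]
  have hy : (N : ℝ) * (2 * x) ^ 2 / 2 = 8 * ω ^ 2 := by
    have h2 : Real.sqrt N ^ 2 = N := Real.sq_sqrt hNr.le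
    rw [hx]
    have : (2 * (2 * ω / Real.sqrt N)) ^ 2 = 16 * ω ^ 2 / Real.sqrt N ^ 2 := by ring
    rw [this, h2]
    field_simp
    ring
  rw [← hy]
  exact COV_num x c N _ _ hc hc0 hc1 hnm hs _ hcy

end Pool.Agent.helper43.KG
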