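import Pool.Agent.helper43.KG.Spec

set_option autoImplicit false

/-!
# kg:ST1
-/

namespace Pool.Agent.helper43.KG

open Finset MeasureTheory ProbabilityTheory
open scoped ENNReal

theorem ST1_convex (p : ℝ) (hp : 1 ≤ p) : ConvexOn ℝ Set.univ (fun x : ℝ => |x| ^ p) := by
  refine ⟨convex_univ, ?_⟩
  intro x _ y _ a b ha hb hab
  have h := (convexOn_rpow hp).2 (Set.mem_Ici.2 (abs_nonneg x)) (Set.mem_Ici.2 (abs_nonneg y)) ha hb hab
  refine le_trans ?_ h
  simp only [smul_eq_mul]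
  refine Real.rpow_le_rpow (abs_nonneg _) ?_ (by linarith)
  calc |a * x + b * y| ≤ |a * x| + |b * y| := abs_add_le _ _
    _ = a * |x| + b * |y| := by rw [abs_mul, abs_mul, abs_of_nonneg ha, abs_of_nonneg hb]

theorem ST1_c (x : ℝ) : ∃ c : ℝ, 0 ≤ c ∧ c ≤ 1 ∧ |c * x| ≤ 1 ∧ 1 - (c * x) ^ 2 ≤ 2 * |(|x| - 1)| ∧ 0 ≤ 1 - (c * x) ^ 2 := by
  by_cases hx : |x| ≤ 1
  · refine ⟨1, zero_le_one, le_rfl, ?_, ?_, ?_⟩
    · rwa [one_mul]
    · rw [one_mul, ← sq_abs, abs_of_nonpos (by linarith : |x| - 1 ≤ 0)]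
      nlinarith [abs_nonneg x, sq_nonneg (|x| - 1)]
    · rw [one_mul, ← sq_abs]
      nlinarith [abs_nonneg x]
  · push Not at hx
    have hx0 : 0 < |x| := by linarith
    refine ⟨1 / |x|, by positivity, ?_, ?_, ?_, ?_⟩
    · rw [div_le_one hx0]
      exact hx.le
    · rw [abs_mul, abs_of_nonneg (by positivity : 0 ≤ 1 / |x|), one_div, inv_mul_cancel₀ hx0.ne']
    · have h1 : (1 / |x| * x) ^ 2 = 1 := by
        rw [mul_pow, div_pow, sq_abs, one_pow, one_div, inv_mul_cancel₀]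
        rw [← sq_abs]
        positivity
      rw [h1]
      have := abs_nonneg (|x| - 1)
      linarith
    · have h1 : (1 / |x| * x) ^ 2 = 1 := by
        rw [mul_pow, div_pow, sq_abs, one_pow, one_div, inv_mul_cancel₀]
        rw [← sq_abs]
        positivity
      rw [h1]
      linarith

theorem t_st1 (hm : MON) (hc : CLT) (hn : GMN) (he : GEV) : ST1 := by
  intro p ε hp hp2 hε
  obtain ⟨d₀, hd₀⟩ := hc p ε 1 hp hp2 hε le_rfl
  refine ⟨d₀, fun d hd t f V₀ hf hV0 hV => ?_⟩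
  choose c hc0 hc1 hw hw2 hw3 using fun j => ST1_c (t j)
  have h1 := hd₀ d hd (Fin d) univ f (fun j => c j * t j) (∑ j, t j * f j)
    (by rw [card_univ, Fintype.card_fin]) (fun j _ => hf j) (fun j _ => hw j)
  have h2 := hm (Fin d) univ f t c (fun x => |x| ^ p) (ST1_convex p hp) (fun j _ => hf j)
    (fun j _ => ⟨hc0 j, hc1 j⟩) (∑ j, t j * f j)
  have h3 : EE univ f (fun U => |(∑ j, t j * f j) + ∑ j, t j * (sg U j - f j)| ^ p) =
      EE univ f (fun X => |∑ j, t j * sg X j| ^ p) := by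
    refine EE_congr fun U _ => ?_
    rw [← Finset.sum_add_distrib]
    have : (∑ j, (t j * f j + t j * (sg U j - f j))) = ∑ j, t j * sg U j :=
      Finset.sum_congr rfl fun j _ => by ring
    rw [this]
  have hVV : V₀ ≤ ∑ j, (c j * t j) ^ 2 * (1 - f j ^ 2) := by
    refine hV.trans ?_
    rw [Finset.mul_sum, ← Finset.sum_sub_distrib]
    refine Finset.sum_le_sum fun j _ => ?_
    have hf1 : 0 ≤ 1 - f j ^ 2 := by
      have := abs_le.1 (hf j)
      nlinarith [this.1, this.2]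
    have hf2 : 1 - f j ^ 2 ≤ 1 := by nlinarith [sq_nonneg (f j)]
    have h4 : (1 - (c j * t j) ^ 2) * (1 - f j ^ 2) ≤ 2 * |(|t j| - 1)| := by
      calc (1 - (c j * t j) ^ 2) * (1 - f j ^ 2) ≤ (1 - (c j * t j) ^ 2) * 1 :=
            mul_le_mul_of_nonneg_left hf2 (hw3 j)
        _ ≤ 2 * |(|t j| - 1)| := by rw [mul_one]; exact hw2 j
    have h5 : (1 - (c j * t j) ^ 2) * (1 - f j ^ 2) = (1 - f j ^ 2) - (c j * t j) ^ 2 * (1 - f j ^ 2) := by ring
    linarith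
  have hab : ∀ a s : ℝ, GH p a s = GH p |a| s := by
    intro a s
    rcases abs_cases a with h | h
    · rw [h.1]
    · rw [h.1]
      exact ((he p s hp hp2.le).2.1 a).symm
  have h6 : GH p (∑ j, t j * f j) (Real.sqrt V₀) ≤
      GH p (∑ j, t j * f j) (Real.sqrt (∑ j, (c j * t j) ^ 2 * (1 - f j ^ 2))) := by
    rw [hab _ (Real.sqrt V₀), hab _ (Real.sqrt (∑ j, (c j * t j) ^ 2 * (1 - f j ^ 2)))]
    exact hn p _ _ _ _ hp hp2.le (abs_nonneg _) le_rfl (Real.sqrt_nonneg _) (Real.sqrt_le_sqrt hVV)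
  rw [h3] at h2
  linarith

end Pool.Agent.helper43.KG
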