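import Pool.Agent.helper43.KG.Spec

set_option autoImplicit false

/-!
# kg:ST4
-/

namespace Pool.Agent.helper43.KG

open Finset MeasureTheory ProbabilityTheory
open scoped ENNReal

theorem ST4_sin (c x : ℝ) : Real.sin (c * sn x) = sn x * Real.sin c := by
  unfold sn
  split_ifs
  · rw [mul_one, one_mul]
  · rw [mul_neg, mul_one, Real.sin_neg, neg_one_mul]

theorem ST4_cos (c x : ℝ) : Real.cos (c * sn x) = Real.cos c := by
  unfold sn
  split_ifs
  · rw [mul_one]
  · rw [mul_neg, mul_one, Real.cos_neg]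

theorem ST4_abs (x : ℝ) : x * sn x = |x| := by
  unfold sn
  split_ifs with h
  · rw [mul_one, abs_of_nonneg h]
  · rw [mul_neg, mul_one, abs_of_neg (not_le.1 h)]

theorem t_st4 (h : TRS) : ST4 := by
  intro d T G ω i hi
  have h1 : EE G (fun _ => 0) (fun U => sg U i * ∑ j, T i j *
      Real.sin (ω / Real.sqrt G.card * ∑ k ∈ G, sn (T k j) * sg U k)) =
      EE G (fun _ => 0) (fun U => ∑ j, T i j * (sg U i *
        Real.sin (∑ k ∈ G, (ω / Real.sqrt G.card * sn (T k j)) * sg U k))) := by
    refine EE_congr fun U _ => ?_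
    rw [Finset.mul_sum]
    refine Finset.sum_congr rfl fun j _ => ?_
    have e : (ω / Real.sqrt G.card * ∑ k ∈ G, sn (T k j) * sg U k) =
        ∑ k ∈ G, (ω / Real.sqrt G.card * sn (T k j)) * sg U k := by
      rw [Finset.mul_sum]
      exact Finset.sum_congr rfl fun k _ => by ring
    rw [e]
    ring
  rw [h1, EE_sum, Finset.sum_mul]
  refine Finset.sum_congr rfl fun j _ => ?_
  rw [EE_mul, h (Fin d) G (fun k => ω / Real.sqrt G.card * sn (T k j)) i hi, ST4_sin]
  have e : (∏ k ∈ G.erase i, Real.cos (ω / Real.sqrt G.card * sn (T k j))) =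
      Real.cos (ω / Real.sqrt G.card) ^ (G.card - 1) := by
    rw [Finset.prod_congr rfl fun k _ => ST4_cos _ _, Finset.prod_const, Finset.card_erase_of_mem hi]
  rw [e, ← ST4_abs]
  ring

end Pool.Agent.helper43.KG
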